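import Pool.Agent.TH12.EN.Main
set_option autoImplicit false

namespace Pool.Agent.TH12.EN

open MeasureTheory ProbabilityTheory Real Set
open scoped ENNReal Pointwise

variable (μ : Measure ℝ) [IsProbabilityMeasure μ]

theorem secant (s : ℝ) (h0 : 0 ≤ s) (h1 : s ≤ 36 / 25) :
    rexp (-s) ≤ 1 - s * ((1 - rexp (-(36 / 25))) / (36 / 25)) := by
  have hc := convexOn_exp.2
  have ha : 0 ≤ 1 - s / (36 / 25) := by
    rw [sub_nonneg, div_le_one (by norm_num)]
    exact h1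
  have hb : 0 ≤ s / (36 / 25) := by positivity
  have h := hc (mem_univ (0 : ℝ)) (mem_univ (-(36 / 25) : ℝ)) ha hb (by ring)
  simp only [smul_eq_mul, mul_zero, zero_add, exp_zero, mul_one] at h
  have h2 : s / (36 / 25) * -(36 / 25) = -s := by
    field_simp
  rw [h2] at h
  refine h.trans (le_of_eq ?_)
  ring

theorem mean_sq (h2 : MemLp (fun x : ℝ => x) 2 μ) (hv : variance (fun x : ℝ => x) μ = 1) :
    ∫ p : ℝ × ℝ, (p.1 - p.2) ^ 2 ∂(μ.prod μ) = 2 := by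
  have hf : MemLp (fun p : ℝ × ℝ => p.1) 2 (μ.prod μ) :=
    h2.comp_measurePreserving measurePreserving_fst
  have hs : MemLp (fun p : ℝ × ℝ => p.2) 2 (μ.prod μ) :=
    h2.comp_measurePreserving measurePreserving_snd
  have hi1 : Integrable (fun p : ℝ × ℝ => p.1 ^ 2) (μ.prod μ) := hf.integrable_sq
  have hi2 : Integrable (fun p : ℝ × ℝ => p.2 ^ 2) (μ.prod μ) := hs.integrable_sq
  have hi3 : Integrable (fun p : ℝ × ℝ => p.1 * p.2) (μ.prod μ) := hf.integrable_mul hs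
  have e1 : ∫ p : ℝ × ℝ, p.1 ^ 2 ∂(μ.prod μ) = ∫ x, x ^ 2 ∂μ := by
    have h := integral_prod_mul (μ := μ) (ν := μ) (fun x : ℝ => x ^ 2) (fun _ : ℝ => (1 : ℝ))
    simpa using h
  have e2 : ∫ p : ℝ × ℝ, p.2 ^ 2 ∂(μ.prod μ) = ∫ x, x ^ 2 ∂μ := by
    have h := integral_prod_mul (μ := μ) (ν := μ) (fun _ : ℝ => (1 : ℝ)) (fun x : ℝ => x ^ 2)
    simpa using h
  have e3 : ∫ p : ℝ × ℝ, p.1 * p.2 ∂(μ.prod μ) = (∫ x, x ∂μ) * ∫ x, x ∂μ :=
    integral_prod_mul (μ := μ) (ν := μ) (fun x : ℝ => x) (fun x : ℝ => x)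
  have hvar := variance_eq_sub h2
  rw [hv] at hvar
  have e4 : ∫ x, x ^ 2 ∂μ = (∫ x, ((fun x : ℝ => x) ^ 2) x ∂μ) := rfl
  have e5 : ∫ p : ℝ × ℝ, (p.1 - p.2) ^ 2 ∂(μ.prod μ) =
      ∫ p : ℝ × ℝ, (p.1 ^ 2 + p.2 ^ 2 - 2 * (p.1 * p.2)) ∂(μ.prod μ) := by
    refine integral_congr_ae (Filter.Eventually.of_forall fun p => ?_)
    show (p.1 - p.2) ^ 2 = p.1 ^ 2 + p.2 ^ 2 - 2 * (p.1 * p.2)
    ring
  have hi4 : Integrable (fun p : ℝ × ℝ => p.1 ^ 2 + p.2 ^ 2) (μ.prod μ) := hi1.add hi2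
  rw [e5, integral_sub hi4 (hi3.const_mul 2), integral_add hi1 hi2, integral_const_mul,
    e1, e2, e3, e4]
  have h6 : (∫ x, ((fun x : ℝ => x) ^ 2) x ∂μ) = 1 + (∫ x, x ∂μ) ^ 2 := by
    linarith
  rw [h6]
  ring

theorem K_le (h2 : MemLp (fun x : ℝ => x) 2 μ) (hv : variance (fun x : ℝ => x) μ = 1) (a : ℝ)
    (hA : ∀ᵐ x ∂μ, x ∈ Icc a (a + 12 / 5)) :
    K μ ≤ 1 - 1 / 2 * ((1 - rexp (-(36 / 25))) / (36 / 25)) := by
  have h3 : ∀ᵐ p ∂(μ.prod μ), p.1 ∈ Icc a (a + 12 / 5) :=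
    measurePreserving_fst.quasiMeasurePreserving.ae hA
  have h4 : ∀ᵐ p ∂(μ.prod μ), p.2 ∈ Icc a (a + 12 / 5) :=
    measurePreserving_snd.quasiMeasurePreserving.ae hA
  have hf : MemLp (fun p : ℝ × ℝ => p.1) 2 (μ.prod μ) :=
    h2.comp_measurePreserving measurePreserving_fst
  have hs : MemLp (fun p : ℝ × ℝ => p.2) 2 (μ.prod μ) :=
    h2.comp_measurePreserving measurePreserving_snd
  have hi : Integrable (fun p : ℝ × ℝ => (p.1 - p.2) ^ 2) (μ.prod μ) := (hf.sub hs).integrable_sq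
  set β := (1 - rexp (-(36 / 25))) / (36 / 25) with hβ
  have hm := mean_sq μ h2 hv
  calc K μ ≤ ∫ p : ℝ × ℝ, (1 - (β / 4) * (p.1 - p.2) ^ 2) ∂(μ.prod μ) := by
        refine integral_mono_ae (integrable_K μ) ((integrable_const 1).sub (hi.const_mul _)) ?_
        filter_upwards [h3, h4] with p hp1 hp2
        have h5 : (p.1 - p.2) ^ 2 / 4 ≤ 36 / 25 := by
          have h6 : |p.1 - p.2| ≤ 12 / 5 := by
            rw [abs_le]
            constructor
            · linarith [hp1.1, hp2.2]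
            · linarith [hp1.2, hp2.1]
          have h7 := sq_le_sq' (by linarith [abs_nonneg (p.1 - p.2)]) h6
          rw [sq_abs] at h7
          norm_num at h7
          linarith
        have h8 := secant ((p.1 - p.2) ^ 2 / 4) (by positivity) h5
        have h9 : -(p.1 - p.2) ^ 2 / 4 = -((p.1 - p.2) ^ 2 / 4) := by ring
        show rexp (-(p.1 - p.2) ^ 2 / 4) ≤ 1 - β / 4 * (p.1 - p.2) ^ 2
        rw [h9]
        refine h8.trans (le_of_eq ?_)
        ring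
    _ = 1 - 1 / 2 * β := by
        rw [integral_sub (integrable_const 1) (hi.const_mul _), integral_const_mul, hm]
        simp
        ring

theorem exp_bound : rexp (-(36 / 25)) ≤ 6 / 25 := by
  rw [exp_neg]
  have h1 : (25 : ℝ) / 6 ≤ rexp (36 / 25) := by
    have h2 := Real.sum_le_exp_of_nonneg (x := (36 / 25 : ℝ)) (by norm_num) 6
    refine le_trans ?_ h2
    norm_num [Finset.sum_range_succ, Nat.factorial]
  calc (rexp (36 / 25))⁻¹ ≤ ((25 : ℝ) / 6)⁻¹ := inv_anti₀ (by norm_num) h1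
    _ = 6 / 25 := by norm_num

theorem cor (h2 : MemLp (fun x : ℝ => x) 2 μ) (hv : variance (fun x : ℝ => x) μ = 1) (a : ℝ)
    (hA : ∀ᵐ x ∂μ, x ∈ Icc a (a + 12 / 5)) : EntropyInequality μ := by
  refine main μ h2 (Icc a (a + 12 / 5)) hA ?_
  have hsub : Icc a (a + 12 / 5) + Icc a (a + 12 / 5) ⊆ Icc (2 * a) (2 * a + 24 / 5) := by
    rintro _ ⟨x, hx, y, hy, rfl⟩
    constructor
    · show 2 * a ≤ x + y
      linarith [hx.1, hy.1]
    · show x + y ≤ 2 * a + 24 / 5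
      linarith [hx.2, hy.2]
  have hvol : volume (Icc a (a + 12 / 5) + Icc a (a + 12 / 5)) ≤ ENNReal.ofReal (24 / 5) := by
    refine (measure_mono hsub).trans (le_of_eq ?_)
    rw [Real.volume_Icc]
    congr 1
    ring
  calc volume (Icc a (a + 12 / 5) + Icc a (a + 12 / 5)) * ENNReal.ofReal (K μ)
      ≤ ENNReal.ofReal (24 / 5) * ENNReal.ofReal (K μ) := by gcongr
    _ = ENNReal.ofReal (24 / 5 * K μ) := (ENNReal.ofReal_mul (by norm_num)).symm
    _ ≤ ENNReal.ofReal (2 * √π) := by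
        refine ENNReal.ofReal_le_ofReal ?_
        have h3 := K_le μ h2 hv a hA
        have h4 := exp_bound
        have h5 : (1.772 : ℝ) ≤ √π := by
          refine Real.le_sqrt_of_sq_le ?_
          have := Real.pi_gt_d4
          norm_num at this ⊢
          linarith
        have h6 : (1 - rexp (-(36 / 25))) / (36 / 25) ≥ (19 / 25) / (36 / 25) := by
          gcongr
          linarith
        nlinarith

end Pool.Agent.TH12.EN
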