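import Mathlib
set_option autoImplicit false

namespace Pool.Agent.TH12.EN

open MeasureTheory ProbabilityTheory Real Set
open scoped ENNReal Pointwise

/-- the standard Gaussian density -/
noncomputable def g (t : ℝ) : ℝ := gaussianPDFReal 0 1 t

theorem g_nonneg (t : ℝ) : 0 ≤ g t := gaussianPDFReal_nonneg 0 1 t

theorem g_eq (t : ℝ) : g t = (√(2 * π))⁻¹ * rexp (-t ^ 2 / 2) := by
  unfold g gaussianPDFReal
  simp

theorem g_le (t : ℝ) : g t ≤ 1 := by
  rw [g_eq]
  have h1 : (1 : ℝ) ≤ √(2 * π) := by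
    rw [Real.one_le_sqrt]
    have := Real.pi_gt_three
    linarith
  have h2 : (√(2 * π))⁻¹ ≤ 1 := inv_le_one_of_one_le₀ h1
  have h3 : rexp (-t ^ 2 / 2) ≤ 1 := by
    rw [Real.exp_le_one_iff]
    have := sq_nonneg t
    linarith
  have h4 : 0 ≤ rexp (-t ^ 2 / 2) := (Real.exp_pos _).le
  have h5 : 0 ≤ (√(2 * π))⁻¹ := by positivity
  nlinarith

theorem measurable_g : Measurable g := measurable_gaussianPDFReal 0 1

variable (μ : Measure ℝ) [IsProbabilityMeasure μ]

/-- the density of `X + Z` -/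
noncomputable def Q (y : ℝ) : ℝ≥0∞ := ∫⁻ x, ENNReal.ofReal (g (y - x)) ∂μ

theorem measurable_Q : Measurable (Q μ) := by
  unfold Q
  refine Measurable.lintegral_prod_right' (f := fun p : ℝ × ℝ => ENNReal.ofReal (g (p.1 - p.2))) ?_
  exact (measurable_g.comp (measurable_fst.sub measurable_snd)).ennreal_ofReal

theorem law_eq : (μ.prod (gaussianReal 0 1)).map (fun p : ℝ × ℝ => p.1 + p.2) =
    volume.withDensity (Q μ) := by
  have hm : Measurable fun p : ℝ × ℝ => p.1 + p.2 := measurable_fst.add measurable_snd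
  ext s hs
  rw [Measure.map_apply hm hs, withDensity_apply _ hs, Measure.prod_apply (hm hs)]
  have h1 : ∀ x : ℝ, gaussianReal 0 1 (Prod.mk x ⁻¹' ((fun p : ℝ × ℝ => p.1 + p.2) ⁻¹' s)) =
      ∫⁻ y in s, ENNReal.ofReal (g (y - x)) := by
    intro x
    have hms : MeasurableSet (Prod.mk x ⁻¹' ((fun p : ℝ × ℝ => p.1 + p.2) ⁻¹' s)) :=
      measurable_prodMk_left (hm hs)
    rw [gaussianReal_apply _ (by norm_num), ← lintegral_indicator hms,
      ← lintegral_indicator hs,
      ← lintegral_sub_right_eq_self _ x]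
    refine lintegral_congr fun y => ?_
    unfold g gaussianPDF
    by_cases h : y ∈ s
    · rw [indicator_of_mem h, indicator_of_mem]
      show x + (y - x) ∈ s
      rwa [add_sub_cancel]
    · rw [indicator_of_notMem h, indicator_of_notMem]
      show x + (y - x) ∉ s
      rwa [add_sub_cancel]
  simp_rw [h1]
  unfold Q
  rw [lintegral_lintegral_swap]
  exact ((measurable_g.comp (measurable_snd.sub measurable_fst)).ennreal_ofReal).aemeasurable

theorem lintegral_Q : ∫⁻ y, Q μ y = 1 := by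
  have h := congrArg (fun m : Measure ℝ => m univ) (law_eq μ)
  simp only [withDensity_apply _ MeasurableSet.univ, Measure.restrict_univ] at h
  rw [← h]
  have hm : Measurable fun p : ℝ × ℝ => p.1 + p.2 := measurable_fst.add measurable_snd
  rw [Measure.map_apply hm MeasurableSet.univ]
  simp

theorem Q_le (y : ℝ) : Q μ y ≤ 1 := by
  unfold Q
  calc ∫⁻ x, ENNReal.ofReal (g (y - x)) ∂μ ≤ ∫⁻ _x, 1 ∂μ := by
        refine lintegral_mono fun x => ?_
        rw [← ENNReal.ofReal_one]
        exact ENNReal.ofReal_le_ofReal (g_le _)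
    _ = 1 := by simp

/-- the real density -/
noncomputable def q (y : ℝ) : ℝ := (Q μ y).toReal

theorem q_nonneg (y : ℝ) : 0 ≤ q μ y := ENNReal.toReal_nonneg

theorem q_le (y : ℝ) : q μ y ≤ 1 := by
  unfold q
  have := ENNReal.toReal_mono ENNReal.one_ne_top (Q_le μ y)
  simpa using this

theorem ofReal_q (y : ℝ) : ENNReal.ofReal (q μ y) = Q μ y :=
  ENNReal.ofReal_toReal (ne_top_of_le_ne_top ENNReal.one_ne_top (Q_le μ y))

theorem measurable_q : Measurable (q μ) := (measurable_Q μ).ennreal_toReal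

theorem integrable_q : Integrable (q μ) := by
  refine integrable_toReal_of_lintegral_ne_top (measurable_Q μ).aemeasurable ?_
  rw [lintegral_Q]
  exact ENNReal.one_ne_top

theorem integral_q : ∫ y, q μ y = 1 := by
  unfold q
  rw [integral_toReal (measurable_Q μ).aemeasurable, lintegral_Q]
  · simp
  · exact Filter.Eventually.of_forall fun y => (Q_le μ y).trans_lt ENNReal.one_lt_top

/-- the mean of `exp (- (x - y)² / 4)` -/
noncomputable def K : ℝ := ∫ p : ℝ × ℝ, rexp (-(p.1 - p.2) ^ 2 / 4) ∂(μ.prod μ)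

theorem integrable_K : Integrable (fun p : ℝ × ℝ => rexp (-(p.1 - p.2) ^ 2 / 4)) (μ.prod μ) := by
  refine Integrable.of_bound (C := 1) ?_ ?_
  · exact (Measurable.exp (by fun_prop)).aestronglyMeasurable
  · refine Filter.Eventually.of_forall fun p => ?_
    rw [Real.norm_eq_abs, abs_of_pos (Real.exp_pos _), Real.exp_le_one_iff]
    have := sq_nonneg (p.1 - p.2)
    linarith

theorem K_pos : 0 < K μ := by
  unfold K
  rw [integral_pos_iff_support_of_nonneg]
  · have : Function.support (fun p : ℝ × ℝ => rexp (-(p.1 - p.2) ^ 2 / 4)) = univ := by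
      ext p
      simp [(Real.exp_pos _).ne']
    rw [this]
    simp
  · intro p
    exact (Real.exp_pos _).le
  · exact integrable_K μ

theorem gg (x x' : ℝ) : ∫⁻ y, ENNReal.ofReal (g (y - x)) * ENNReal.ofReal (g (y - x')) =
    ENNReal.ofReal ((2 * √π)⁻¹ * rexp (-(x - x') ^ 2 / 4)) := by
  have h1 : ∀ y, g (y - x) * g (y - x') =
      ((2 * π)⁻¹ * rexp (-(x - x') ^ 2 / 4)) * rexp (-1 * (y - (x + x') / 2) ^ 2) := by
    intro y
    rw [g_eq, g_eq]
    have h2 : (√(2 * π))⁻¹ * (√(2 * π))⁻¹ = (2 * π)⁻¹ := by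
      rw [← mul_inv, Real.mul_self_sqrt (by positivity)]
    calc (√(2 * π))⁻¹ * rexp (-(y - x) ^ 2 / 2) * ((√(2 * π))⁻¹ * rexp (-(y - x') ^ 2 / 2))
        = ((√(2 * π))⁻¹ * (√(2 * π))⁻¹) * (rexp (-(y - x) ^ 2 / 2) * rexp (-(y - x') ^ 2 / 2)) := by
          ring
      _ = (2 * π)⁻¹ * (rexp (-(x - x') ^ 2 / 4) * rexp (-1 * (y - (x + x') / 2) ^ 2)) := by
          rw [h2, ← Real.exp_add, ← Real.exp_add]
          congr 2
          ring
      _ = _ := by ring
  have h3 : Integrable fun y : ℝ => rexp (-1 * (y - (x + x') / 2) ^ 2) :=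
    (integrable_exp_neg_mul_sq one_pos).comp_sub_right ((x + x') / 2)
  have h4 : ∫ y : ℝ, rexp (-1 * (y - (x + x') / 2) ^ 2) = √π := by
    rw [integral_sub_right_eq_self (fun y : ℝ => rexp (-1 * y ^ 2)) ((x + x') / 2),
      integral_gaussian]
    simp
  calc ∫⁻ y, ENNReal.ofReal (g (y - x)) * ENNReal.ofReal (g (y - x'))
      = ∫⁻ y, ENNReal.ofReal (((2 * π)⁻¹ * rexp (-(x - x') ^ 2 / 4)) *
          rexp (-1 * (y - (x + x') / 2) ^ 2)) := by
        refine lintegral_congr fun y => ?_
        rw [← ENNReal.ofReal_mul (g_nonneg _), h1]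
    _ = ENNReal.ofReal (∫ y, ((2 * π)⁻¹ * rexp (-(x - x') ^ 2 / 4)) *
          rexp (-1 * (y - (x + x') / 2) ^ 2)) := by
        rw [ofReal_integral_eq_lintegral_ofReal (h3.const_mul _)]
        refine Filter.Eventually.of_forall fun y => ?_
        show 0 ≤ _
        positivity
    _ = _ := by
        rw [integral_const_mul, h4]
        congr 1
        have h5 : (2 * π)⁻¹ * √π = (2 * √π)⁻¹ := by
          have h6 : √π * √π = π := Real.mul_self_sqrt Real.pi_pos.le
          have h7 : √π ≠ 0 := (Real.sqrt_pos.2 Real.pi_pos).ne'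
          have h8 : π ≠ 0 := Real.pi_pos.ne'
          rw [inv_mul_eq_div, div_eq_iff (by positivity), inv_mul_eq_div, eq_div_iff (by positivity)]
          nlinarith
        calc (2 * π)⁻¹ * rexp (-(x - x') ^ 2 / 4) * √π
            = ((2 * π)⁻¹ * √π) * rexp (-(x - x') ^ 2 / 4) := by ring
          _ = _ := by rw [h5]

theorem lintegral_Q_sq : ∫⁻ y, Q μ y * Q μ y = ENNReal.ofReal ((2 * √π)⁻¹ * K μ) := by
  have hmg : Measurable fun p : ℝ × ℝ => ENNReal.ofReal (g (p.1 - p.2)) :=
    (measurable_g.comp (measurable_fst.sub measurable_snd)).ennreal_ofReal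
  have h1 : ∀ y, Q μ y * Q μ y = ∫⁻ p : ℝ × ℝ, ENNReal.ofReal (g (y - p.1)) *
      ENNReal.ofReal (g (y - p.2)) ∂(μ.prod μ) := by
    intro y
    have hy : Measurable fun x : ℝ => ENNReal.ofReal (g (y - x)) :=
      (measurable_g.comp (measurable_const.sub measurable_id)).ennreal_ofReal
    rw [lintegral_prod_mul hy.aemeasurable hy.aemeasurable]
    rfl
  simp_rw [h1]
  rw [lintegral_lintegral_swap]
  · simp_rw [gg]
    rw [← ofReal_integral_eq_lintegral_ofReal ((integrable_K μ).const_mul _), integral_const_mul]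
    · rfl
    · refine Filter.Eventually.of_forall fun p => ?_
      show 0 ≤ _
      positivity
  · have hA : Measurable fun z : ℝ × (ℝ × ℝ) => ENNReal.ofReal (g (z.1 - z.2.1)) :=
      (measurable_g.comp (measurable_fst.sub (measurable_fst.comp measurable_snd))).ennreal_ofReal
    have hB : Measurable fun z : ℝ × (ℝ × ℝ) => ENNReal.ofReal (g (z.1 - z.2.2)) :=
      (measurable_g.comp (measurable_fst.sub (measurable_snd.comp measurable_snd))).ennreal_ofReal
    exact (hA.mul hB).aemeasurable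

theorem integrable_q_sq : Integrable fun y => q μ y ^ 2 := by
  refine Integrable.mono' (integrable_q μ) ((measurable_q μ).pow_const 2).aestronglyMeasurable ?_
  refine Filter.Eventually.of_forall fun y => ?_
  rw [Real.norm_eq_abs, abs_of_nonneg (sq_nonneg _), sq]
  exact mul_le_of_le_one_left (q_nonneg μ y) (q_le μ y)

theorem integral_q_sq : ∫ y, q μ y ^ 2 = (2 * √π)⁻¹ * K μ := by
  have h1 : ENNReal.ofReal (∫ y, q μ y ^ 2) = ENNReal.ofReal ((2 * √π)⁻¹ * K μ) := by
    rw [ofReal_integral_eq_lintegral_ofReal (integrable_q_sq μ), ← lintegral_Q_sq]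
    · refine lintegral_congr fun y => ?_
      rw [sq, ENNReal.ofReal_mul (q_nonneg μ y), ofReal_q]
    · exact Filter.Eventually.of_forall fun y => sq_nonneg _
  have h2 : 0 ≤ (2 * √π)⁻¹ * K μ := by
    have := (K_pos μ).le
    positivity
  have h3 := congrArg ENNReal.toReal h1
  rwa [ENNReal.toReal_ofReal (integral_nonneg fun y => sq_nonneg _),
    ENNReal.toReal_ofReal h2] at h3

end Pool.Agent.TH12.EN
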