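import Pool.Agent.TH12.EN.Low2
set_option autoImplicit false

namespace Pool.Agent.TH12.EN

open MeasureTheory ProbabilityTheory Real Set
open scoped ENNReal Pointwise

/-- a nonnegative absolutely continuous function of integral one which vanishes outside an interval of
length less than `2 π` has Fisher information at least one -/
theorem fisher_support (f : ℝ → ℝ) (hf0 : ∀ x, 0 ≤ f x) (m ℓ : ℝ) (hℓ0 : 0 < ℓ) (hℓ : ℓ < π)
    (hac : AbsolutelyContinuousOnInterval f (m - ℓ) (m + ℓ)) (hend1 : f (m - ℓ) = 0)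
    (hend2 : f (m + ℓ) = 0) (hf1 : ∫ x in (m - ℓ)..(m + ℓ), f x = 1) :
    1 ≤ ∫⁻ x, ENNReal.ofReal (deriv f x ^ 2 / f x) := by
  by_cases hJ : ∫⁻ x in Ioc (m - ℓ) (m + ℓ), ENNReal.ofReal (deriv f x ^ 2 / f x) = ∞
  · refine le_trans ?_ (setLIntegral_le_lintegral (Ioc (m - ℓ) (m + ℓ)) _)
    rw [hJ]
    exact le_top
  have hle : m - ℓ ≤ m + ℓ := by linarith
  set φ : ℝ → ℝ := fun s => tan ((s - m) / 2) with hφ
  have hcos : ∀ s ∈ Icc (m - ℓ) (m + ℓ), cos ((s - m) / 2) ≠ 0 := by
    intro s hs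
    refine (cos_pos_of_mem_Ioo ⟨?_, ?_⟩).ne'
    · linarith [hs.1]
    · linarith [hs.2]
  have hd : ∀ s ∈ Icc (m - ℓ) (m + ℓ), HasDerivAt φ (1 / 2 * (1 + φ s ^ 2)) s := by
    intro s hs
    have h1 := (hasDerivAt_tan (hcos s hs)).comp s (((hasDerivAt_id s).sub_const m).div_const 2)
    have h2 : 1 / cos ((s - m) / 2) ^ 2 = 1 + φ s ^ 2 := by
      have h3 := hcos s hs
      simp only [hφ]
      rw [tan_eq_sin_div_cos]
      field_simp
      have := sin_sq_add_cos_sq ((s - m) / 2)
      linarith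
    refine h1.congr_deriv ?_
    show 1 / cos ((s - m) / 2) ^ 2 * (1 / 2) = 1 / 2 * (1 + φ s ^ 2)
    rw [h2]
    ring
  have hφc : ContinuousOn φ (Icc (m - ℓ) (m + ℓ)) := fun s hs =>
    (hd s hs).continuousAt.continuousWithinAt
  have hdc : ContinuousOn (fun s => 1 / 2 * (1 + φ s ^ 2)) (Icc (m - ℓ) (m + ℓ)) :=
    continuousOn_const.mul (continuousOn_const.add (hφc.pow 2))
  have hu : uIcc (m - ℓ) (m + ℓ) = Icc (m - ℓ) (m + ℓ) := uIcc_of_le hle
  have hφac : AbsolutelyContinuousOnInterval φ (m - ℓ) (m + ℓ) := by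
    obtain ⟨C, hC⟩ := isCompact_Icc.exists_bound_of_continuousOn hdc
    have hC0 : 0 ≤ C := (norm_nonneg _).trans (hC (m - ℓ) (left_mem_Icc.2 hle))
    have hlip : LipschitzOnWith ⟨C, hC0⟩ φ (uIcc (m - ℓ) (m + ℓ)) := by
      rw [hu]
      exact (convex_Icc _ _).lipschitzOnWith_of_nnnorm_hasDerivWithin_le
        (fun s hs => (hd s hs).hasDerivWithinAt) fun s hs => hC s hs
    exact hlip.absolutelyContinuousOnInterval
  have hparts := hφac.integral_mul_deriv_eq_deriv_mul hac
  rw [hend1, hend2] at hparts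
  simp only [mul_zero, sub_zero, zero_sub] at hparts
  have hfc : ContinuousOn f (Icc (m - ℓ) (m + ℓ)) := by
    have := hac.continuousOn
    rwa [hu] at this
  have i1 : IntervalIntegrable (fun s => φ s * deriv f s) volume (m - ℓ) (m + ℓ) :=
    hac.intervalIntegrable_deriv.continuousOn_mul (by rw [hu]; exact hφc)
  have i2 : IntervalIntegrable (fun s => φ s ^ 2 * f s) volume (m - ℓ) (m + ℓ) :=
    ContinuousOn.intervalIntegrable (by rw [hu]; exact (hφc.pow 2).mul hfc)
  have i3 : IntervalIntegrable f volume (m - ℓ) (m + ℓ) :=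
    ContinuousOn.intervalIntegrable (by rw [hu]; exact hfc)
  have hder : ∫ s in (m - ℓ)..(m + ℓ), deriv φ s * f s =
      ∫ s in (m - ℓ)..(m + ℓ), (1 / 2 * f s + 1 / 2 * (φ s ^ 2 * f s)) := by
    refine intervalIntegral.integral_congr fun s hs => ?_
    rw [hu] at hs
    show deriv φ s * f s = 1 / 2 * f s + 1 / 2 * (φ s ^ 2 * f s)
    rw [(hd s hs).deriv]
    ring
  rw [hder, intervalIntegral.integral_add (i3.const_mul _) (i2.const_mul _),
    intervalIntegral.integral_const_mul, intervalIntegral.integral_const_mul, hf1] at hparts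
  -- integrability of the score term
  have hm : Measurable (fun x => ENNReal.ofReal (deriv f x ^ 2 / f x)) → True := fun _ => trivial
  have hmeas : AEStronglyMeasurable (fun x => deriv f x ^ 2 / f x)
      (volume.restrict (Ioc (m - ℓ) (m + ℓ))) := by
    have h1 : AEStronglyMeasurable f (volume.restrict (Ioc (m - ℓ) (m + ℓ))) :=
      (hfc.mono Ioc_subset_Icc_self).aestronglyMeasurable measurableSet_Ioc
    exact (((measurable_deriv f).aemeasurable.pow_const 2).div h1.aemeasurable).aestronglyMeasurable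
  have hnn : ∀ x, 0 ≤ deriv f x ^ 2 / f x := fun x => div_nonneg (sq_nonneg _) (hf0 x)
  have hint : IntegrableOn (fun x => deriv f x ^ 2 / f x) (Ioc (m - ℓ) (m + ℓ)) := by
    refine ⟨hmeas, ?_⟩
    rw [hasFiniteIntegral_iff_ofReal (Filter.Eventually.of_forall hnn)]
    exact lt_top_iff_ne_top.2 hJ
  have i4 : IntervalIntegrable (fun x => deriv f x ^ 2 / f x) volume (m - ℓ) (m + ℓ) :=
    (intervalIntegrable_iff_integrableOn_Ioc_of_le hle).2 hint
  have hpos : 0 ≤ ∫ s in (m - ℓ)..(m + ℓ),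
      (deriv f s ^ 2 / f s + 2 * (φ s * deriv f s) + φ s ^ 2 * f s) := by
    refine intervalIntegral.integral_nonneg hle fun s _ => ?_
    rcases (hf0 s).eq_or_lt with h | h
    · have hmin : IsLocalMin f s := Filter.Eventually.of_forall fun x => by
        rw [← h]
        exact hf0 x
      rw [hmin.deriv_eq_zero, ← h]
      simp
    · have h1 : deriv f s ^ 2 / f s + 2 * (φ s * deriv f s) + φ s ^ 2 * f s =
          (deriv f s + φ s * f s) ^ 2 / f s := by
        field_simp
        ring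
      rw [h1]
      positivity
  have i5 : IntervalIntegrable (fun s => deriv f s ^ 2 / f s + 2 * (φ s * deriv f s)) volume
      (m - ℓ) (m + ℓ) := i4.add (i1.const_mul _)
  rw [intervalIntegral.integral_add i5 i2, intervalIntegral.integral_add i4 (i1.const_mul _),
    intervalIntegral.integral_const_mul, hparts] at hpos
  have hJ1 : 1 ≤ ∫ s in (m - ℓ)..(m + ℓ), deriv f s ^ 2 / f s := by linarith
  rw [intervalIntegral.integral_of_le hle] at hJ1
  calc (1 : ℝ≥0∞) = ENNReal.ofReal 1 := ENNReal.ofReal_one.symm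
    _ ≤ ENNReal.ofReal (∫ s in Ioc (m - ℓ) (m + ℓ), deriv f s ^ 2 / f s) :=
        ENNReal.ofReal_le_ofReal hJ1
    _ = ∫⁻ x in Ioc (m - ℓ) (m + ℓ), ENNReal.ofReal (deriv f x ^ 2 / f x) :=
        ofReal_integral_eq_lintegral_ofReal hint (Filter.Eventually.of_forall hnn)
    _ ≤ _ := setLIntegral_le_lintegral _ _

end Pool.Agent.TH12.EN
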