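import Pool.Agent.TH12.EN.FishZ
import Pool.Agent.TH12.EN.FishS
set_option autoImplicit false

namespace Pool.Agent.TH12.EN

open MeasureTheory ProbabilityTheory Real Set
open scoped ENNReal Pointwise

variable (μ : Measure ℝ) [IsProbabilityMeasure μ]

theorem sum_fisher (a ℓ : ℝ) (hℓ : ℓ < π) (hA : ∀ᵐ x ∂μ, x ∈ Icc a (a + ℓ)) (f : ℝ → ℝ)
    (hf0 : ∀ x, 0 ≤ f x) (hac : ∀ c d, AbsolutelyContinuousOnInterval f c d)
    (hlaw : (μ.prod μ).map (fun p : ℝ × ℝ => p.1 + p.2) =
      volume.withDensity (fun x => ENNReal.ofReal (f x))) :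
    1 ≤ ∫⁻ x, ENNReal.ofReal (deriv f x ^ 2 / f x) := by
  wlog h1 : 1 ≤ ℓ generalizing ℓ with H
  · refine H 1 ?_ ?_ le_rfl
    · have := Real.pi_gt_three
      linarith
    · filter_upwards [hA] with x hx
      exact ⟨hx.1, by linarith [hx.2, not_le.1 h1]⟩
  have hm : Measurable fun p : ℝ × ℝ => p.1 + p.2 := measurable_fst.add measurable_snd
  have hfc : Continuous f := by
    rw [continuous_iff_continuousAt]
    intro x
    have h := (hac (x - 1) (x + 1)).continuousOn
    rw [uIcc_of_le (by linarith)] at h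
    exact h.continuousAt (Icc_mem_nhds (by linarith) (by linarith))
  set m := 2 * a + ℓ with hmdef
  have hnull : ∀ U : Set ℝ, MeasurableSet U → (∀ x ∈ U, x ∉ Icc (m - ℓ) (m + ℓ)) →
      ∫⁻ x in U, ENNReal.ofReal (f x) = 0 := by
    intro U hU hUd
    rw [← withDensity_apply _ hU, ← hlaw, Measure.map_apply hm hU]
    have h3 : ∀ᵐ p ∂(μ.prod μ), p.1 ∈ Icc a (a + ℓ) :=
      measurePreserving_fst.quasiMeasurePreserving.ae hA
    have h4 : ∀ᵐ p ∂(μ.prod μ), p.2 ∈ Icc a (a + ℓ) :=
      measurePreserving_snd.quasiMeasurePreserving.ae hA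
    have h5 : ∀ᵐ p ∂(μ.prod μ), ¬ (p.1 + p.2 ∈ U) := by
      filter_upwards [h3, h4] with p hp1 hp2 hp
      refine hUd _ hp ⟨?_, ?_⟩
      · linarith [hp1.1, hp2.1]
      · linarith [hp1.2, hp2.2]
    have h6 := ae_iff.1 h5
    simp only [not_not] at h6
    exact h6
  have hmf : Measurable fun x => ENNReal.ofReal (f x) := hfc.measurable.ennreal_ofReal
  have hzero : ∀ U : Set ℝ, IsOpen U → (∀ x ∈ U, x ∉ Icc (m - ℓ) (m + ℓ)) →
      ∀ x ∈ closure U, f x = 0 := by
    intro U hU hUd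
    have h2 := hnull U hU.measurableSet hUd
    rw [lintegral_eq_zero_iff hmf] at h2
    have h3 : f =ᵐ[volume.restrict U] fun _ => (0 : ℝ) := by
      filter_upwards [h2] with x hx
      have h4 : ENNReal.ofReal (f x) = 0 := hx
      rw [ENNReal.ofReal_eq_zero] at h4
      exact le_antisymm h4 (hf0 x)
    have h5 : EqOn f (fun _ => (0 : ℝ)) U :=
      Measure.eqOn_open_of_ae_eq h3 hU hfc.continuousOn continuousOn_const
    exact fun x hx => h5.closure hfc continuous_const hx
  have hz1 : ∀ x ≤ m - ℓ, f x = 0 := by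
    intro x hx
    refine hzero (Iio (m - ℓ)) isOpen_Iio (fun y hy hy2 => ?_) x ?_
    · exact absurd hy2.1 (not_le.2 hy)
    · rw [closure_Iio]
      exact hx
  have hz2 : ∀ x, m + ℓ ≤ x → f x = 0 := by
    intro x hx
    refine hzero (Ioi (m + ℓ)) isOpen_Ioi (fun y hy hy2 => ?_) x ?_
    · exact absurd hy2.2 (not_le.2 hy)
    · rw [closure_Ioi]
      exact hx
  have htot : ∫⁻ x, ENNReal.ofReal (f x) = 1 := by
    have h := congrArg (fun ν : Measure ℝ => ν univ) hlaw
    simp only [withDensity_apply _ MeasurableSet.univ, Measure.restrict_univ] at h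
    rw [← h, Measure.map_apply hm MeasurableSet.univ]
    simp
  have hint : ∫ x, f x = 1 := by
    rw [integral_eq_lintegral_of_nonneg_ae (Filter.Eventually.of_forall hf0)
      hfc.aestronglyMeasurable, htot]
    simp
  refine fisher_support f hf0 m ℓ (by linarith) hℓ (hac _ _) (hz1 _ le_rfl) (hz2 _ le_rfl) ?_
  rw [intervalIntegral.integral_of_le (by linarith),
    setIntegral_eq_integral_of_forall_compl_eq_zero, hint]
  intro x hx
  by_cases h : x ≤ m - ℓ
  · exact hz1 x h
  · refine hz2 x ?_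
    by_contra h6
    exact hx ⟨not_le.1 h, (not_le.1 h6).le⟩

end Pool.Agent.TH12.EN
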