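import Pool.Agent.TH12.EN.Low2
set_option autoImplicit false

namespace Pool.Agent.TH12.EN

open MeasureTheory ProbabilityTheory Real Set
open scoped ENNReal Pointwise

theorem hasDerivAt_g (t : ℝ) : HasDerivAt g (-t * g t) t := by
  have h1 : g = fun t => (√(2 * π))⁻¹ * rexp (-t ^ 2 / 2) := funext g_eq
  have h2 : HasDerivAt (fun t : ℝ => -t ^ 2 / 2) (-t) t := by
    have h := ((hasDerivAt_pow 2 t).neg).div_const 2
    refine h.congr_deriv ?_
    norm_num
    ring
  have h3 := (h2.exp).const_mul ((√(2 * π))⁻¹)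
  rw [g_eq t, h1]
  refine h3.congr_deriv ?_
  ring

theorem sq_mul_g_le (t : ℝ) : t ^ 2 * g t ≤ 1 := by
  rw [g_eq]
  have h1 : (1 : ℝ) ≤ √(2 * π) / 2 * 1 := by
    have h5 : (2 : ℝ) ≤ √(2 * π) := by
      refine Real.le_sqrt_of_sq_le ?_
      have := Real.pi_gt_three
      linarith
    linarith
  have h2 : t ^ 2 / 2 * rexp (-t ^ 2 / 2) ≤ 1 := by
    have h6 := Real.add_one_le_exp (t ^ 2 / 2)
    have h7 : rexp (-t ^ 2 / 2) = (rexp (t ^ 2 / 2))⁻¹ := by
      rw [← Real.exp_neg]
      congr 1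
      ring
    rw [h7, ← div_eq_mul_inv, div_le_one (Real.exp_pos _)]
    linarith
  have h3 : 0 ≤ (√(2 * π))⁻¹ := by positivity
  have h4 : (√(2 * π))⁻¹ ≤ 1 / 2 := by
    rw [inv_le_comm₀ (by positivity) (by norm_num)]
    linarith
  have h8 : 0 ≤ t ^ 2 / 2 * rexp (-t ^ 2 / 2) := by positivity
  calc t ^ 2 * ((√(2 * π))⁻¹ * rexp (-t ^ 2 / 2))
      = 2 * (√(2 * π))⁻¹ * (t ^ 2 / 2 * rexp (-t ^ 2 / 2)) := by ring
    _ ≤ 1 * 1 := by
        refine mul_le_mul (by linarith) h2 h8 (by norm_num)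
    _ = 1 := by norm_num

theorem abs_mul_g_le (t : ℝ) : |t| * g t ≤ 1 := by
  have h1 := sq_mul_g_le t
  have h2 := g_le t
  have h3 := g_nonneg t
  have h4 : |t| ≤ (t ^ 2 + 1) / 2 := by
    have := sq_nonneg (|t| - 1)
    rw [← sq_abs]
    nlinarith
  nlinarith

variable (μ : Measure ℝ) [IsProbabilityMeasure μ]

theorem integrable_tg (y : ℝ) : Integrable (fun x => (y - x) * g (y - x)) μ := by
  refine Integrable.of_bound (C := 1) ?_ ?_
  · exact ((measurable_const.sub measurable_id).mul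
      (measurable_g.comp (measurable_const.sub measurable_id))).aestronglyMeasurable
  · refine Filter.Eventually.of_forall fun x => ?_
    rw [Real.norm_eq_abs, abs_mul, abs_of_nonneg (g_nonneg _)]
    exact abs_mul_g_le _

theorem integrable_ttg (y : ℝ) : Integrable (fun x => (y - x) ^ 2 * g (y - x)) μ := by
  refine Integrable.of_bound (C := 1) ?_ ?_
  · exact (((measurable_const.sub measurable_id).pow_const 2).mul
      (measurable_g.comp (measurable_const.sub measurable_id))).aestronglyMeasurable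
  · refine Filter.Eventually.of_forall fun x => ?_
    rw [Real.norm_eq_abs, abs_mul, abs_of_nonneg (g_nonneg _), abs_of_nonneg (sq_nonneg _)]
    exact sq_mul_g_le _

theorem hasDerivAt_q (y : ℝ) : HasDerivAt (q μ) (∫ x, -((y - x) * g (y - x)) ∂μ) y := by
  have h1 : q μ = fun y => ∫ x, g (y - x) ∂μ := funext fun y => q_eq μ y
  rw [h1]
  refine (hasDerivAt_integral_of_dominated_loc_of_deriv_le (bound := fun _ => (1 : ℝ))
    (F := fun y x => g (y - x)) (F' := fun y x => -((y - x) * g (y - x)))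
    Filter.univ_mem ?_ (integrable_gx μ y) ?_ ?_ (integrable_const 1) ?_).2
  · exact Filter.Eventually.of_forall fun y => (integrable_gx μ y).aestronglyMeasurable
  · exact (integrable_tg μ y).neg.aestronglyMeasurable
  · refine Filter.Eventually.of_forall fun x z _ => ?_
    rw [norm_neg, Real.norm_eq_abs, abs_mul, abs_of_nonneg (g_nonneg _)]
    exact abs_mul_g_le _
  · refine Filter.Eventually.of_forall fun x z _ => ?_
    have h2 := (hasDerivAt_g (z - x)).comp z ((hasDerivAt_id z).sub_const x)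
    have h3 : -(z - x) * g (z - x) * 1 = -((z - x) * g (z - x)) := by ring
    rw [h3] at h2
    exact h2

theorem score_le (y : ℝ) : deriv (q μ) y ^ 2 / q μ y ≤ ∫ x, (y - x) ^ 2 * g (y - x) ∂μ := by
  rw [(hasDerivAt_q μ y).deriv, integral_neg, neg_sq]
  set b := ∫ x, (y - x) * g (y - x) ∂μ with hb
  have hq := q_pos μ y
  have h0 : 0 ≤ ∫ x, ((y - x) - b / q μ y) ^ 2 * g (y - x) ∂μ :=
    integral_nonneg fun x => mul_nonneg (sq_nonneg _) (g_nonneg _)
  have h1 : ∀ x, ((y - x) - b / q μ y) ^ 2 * g (y - x) =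
      (y - x) ^ 2 * g (y - x) - 2 * (b / q μ y) * ((y - x) * g (y - x)) +
        (b / q μ y) ^ 2 * g (y - x) := fun x => by ring
  simp_rw [h1] at h0
  have i1 : Integrable (fun x => 2 * (b / q μ y) * ((y - x) * g (y - x))) μ :=
    (integrable_tg μ y).const_mul _
  have i2 : Integrable (fun x => (y - x) ^ 2 * g (y - x) -
      2 * (b / q μ y) * ((y - x) * g (y - x))) μ := (integrable_ttg μ y).sub i1
  rw [integral_add i2 ((integrable_gx μ y).const_mul _), integral_sub (integrable_ttg μ y) i1,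
    integral_const_mul, integral_const_mul, ← q_eq, ← hb] at h0
  have h2 : b ^ 2 / q μ y = 2 * (b / q μ y) * b - (b / q μ y) ^ 2 * q μ y := by
    field_simp
    ring
  linarith

theorem fisher_Z : ∫⁻ y, ENNReal.ofReal (deriv (q μ) y ^ 2 / q μ y) ≤ 1 := by
  have hm : Measurable fun z : ℝ × ℝ => ENNReal.ofReal ((z.1 - z.2) ^ 2 * g (z.1 - z.2)) :=
    (((measurable_fst.sub measurable_snd).pow_const 2).mul
      (measurable_g.comp (measurable_fst.sub measurable_snd))).ennreal_ofReal
  calc ∫⁻ y, ENNReal.ofReal (deriv (q μ) y ^ 2 / q μ y)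
      ≤ ∫⁻ y, ∫⁻ x, ENNReal.ofReal ((y - x) ^ 2 * g (y - x)) ∂μ := by
        refine lintegral_mono fun y => ?_
        rw [← ofReal_integral_eq_lintegral_ofReal (integrable_ttg μ y)]
        · exact ENNReal.ofReal_le_ofReal (score_le μ y)
        · exact Filter.Eventually.of_forall fun x => mul_nonneg (sq_nonneg _) (g_nonneg _)
    _ = ∫⁻ x, ∫⁻ y, ENNReal.ofReal ((y - x) ^ 2 * g (y - x)) ∂volume ∂μ :=
        lintegral_lintegral_swap hm.aemeasurable
    _ = ∫⁻ _x, 1 ∂μ := by
        refine lintegral_congr fun x => ?_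
        rw [lintegral_sub_right_eq_self (fun y => ENNReal.ofReal (y ^ 2 * g y)) x]
        have h1 : (fun y : ℝ => ENNReal.ofReal (y ^ 2 * g y)) =
            fun y : ℝ => ENNReal.ofReal (g y * y ^ 2) := by
          funext y
          rw [mul_comm]
        rw [h1, ← ofReal_integral_eq_lintegral_ofReal integrable_g_sq, integral_g_sq]
        · simp
        · exact Filter.Eventually.of_forall fun y => mul_nonneg (g_nonneg _) (sq_nonneg _)
    _ = 1 := by simp

end Pool.Agent.TH12.EN
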