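import Pool.Agent.TH12.EN.Main
set_option autoImplicit false

namespace Pool.Agent.TH12.EN

open MeasureTheory ProbabilityTheory Real Set
open scoped ENNReal Pointwise

theorem g_pos (t : ℝ) : 0 < g t := gaussianPDFReal_pos 0 1 t (by norm_num)

theorem log_g (t : ℝ) : log (g t) = -(log (2 * π) / 2) - t ^ 2 / 2 := by
  rw [g_eq, log_mul (by positivity) (exp_pos _).ne', log_exp, log_inv, log_sqrt (by positivity)]
  ring

theorem integrable_g : Integrable g := integrable_gaussianPDFReal 0 1

theorem integral_g : ∫ t, g t = 1 := integral_gaussianPDFReal_eq_one 0 (by norm_num)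

theorem integrable_g_sq : Integrable fun t : ℝ => g t * t ^ 2 := by
  have hG : MemLp (fun x : ℝ => x) 2 (gaussianReal 0 1) := memLp_id_gaussianReal 2
  have h := hG.integrable_sq
  rw [gaussianReal_of_var_ne_zero _ (by norm_num), integrable_withDensity_iff
    (measurable_gaussianPDF 0 1) (Filter.Eventually.of_forall fun y => gaussianPDF_lt_top)] at h
  refine h.congr (Filter.Eventually.of_forall fun t => ?_)
  show t ^ 2 * (gaussianPDF 0 1 t).toReal = g t * t ^ 2
  rw [toReal_gaussianPDF, mul_comm]
  rfl

theorem integral_g_sq : ∫ t : ℝ, g t * t ^ 2 = 1 := by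
  have hG : MemLp (fun x : ℝ => x) 2 (gaussianReal 0 1) := memLp_id_gaussianReal 2
  have h1 : variance (fun x : ℝ => x) (gaussianReal 0 1) = 1 := by
    rw [variance_fun_id_gaussianReal]
    simp
  rw [variance_eq_sub hG] at h1
  have h2 : (gaussianReal 0 1)[fun x : ℝ => x] = 0 := integral_id_gaussianReal
  rw [h2] at h1
  have h3 : ∫ x, ((fun x : ℝ => x) ^ 2) x ∂(gaussianReal 0 1) = ∫ t : ℝ, g t * t ^ 2 := by
    rw [integral_gaussianReal_eq_integral_smul (by norm_num)]
    rfl
  rw [← h3]
  linarith

/-- `g log g` -/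
noncomputable def G (t : ℝ) : ℝ := g t * log (g t)

theorem G_eq (t : ℝ) : G t = -(log (2 * π) / 2) * g t - 1 / 2 * (g t * t ^ 2) := by
  unfold G
  rw [log_g]
  ring

theorem measurable_G : Measurable G := measurable_g.mul measurable_g.log

theorem integrable_G : Integrable G := by
  have : G = fun t => -(log (2 * π) / 2) * g t - 1 / 2 * (g t * t ^ 2) := funext G_eq
  rw [this]
  exact (integrable_g.const_mul _).sub (integrable_g_sq.const_mul _)

theorem integral_G : ∫ t, G t = -(log (2 * π * rexp 1) / 2) := by
  have : G = fun t => -(log (2 * π) / 2) * g t - 1 / 2 * (g t * t ^ 2) := funext G_eq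
  rw [this, integral_sub (integrable_g.const_mul _) (integrable_g_sq.const_mul _),
    integral_const_mul, integral_const_mul, integral_g, integral_g_sq,
    log_mul (by positivity) (exp_pos _).ne', log_exp]
  ring

variable (μ : Measure ℝ) [IsProbabilityMeasure μ]

theorem integrable_gx (y : ℝ) : Integrable (fun x => g (y - x)) μ := by
  refine Integrable.of_bound (C := 1) ?_ ?_
  · exact (measurable_g.comp (measurable_const.sub measurable_id)).aestronglyMeasurable
  · refine Filter.Eventually.of_forall fun x => ?_
    rw [Real.norm_eq_abs, abs_of_nonneg (g_nonneg _)]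
    exact g_le _

theorem q_eq (y : ℝ) : q μ y = ∫ x, g (y - x) ∂μ := by
  unfold q Q
  rw [integral_eq_lintegral_of_nonneg_ae (Filter.Eventually.of_forall fun x => g_nonneg _)
    (integrable_gx μ y).aestronglyMeasurable]

theorem q_pos (y : ℝ) : 0 < q μ y := by
  rw [q_eq, integral_pos_iff_support_of_nonneg (fun x => g_nonneg _) (integrable_gx μ y)]
  have : Function.support (fun x => g (y - x)) = univ := by
    ext x
    simp [(g_pos (y - x)).ne']
  rw [this]
  simp

theorem integrable_Gprod : Integrable (fun z : ℝ × ℝ => G (z.1 - z.2))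
    ((volume : Measure ℝ).prod μ) := by
  have hm : Measurable fun z : ℝ × ℝ => G (z.1 - z.2) :=
    measurable_G.comp (measurable_fst.sub measurable_snd)
  rw [integrable_prod_iff' hm.aestronglyMeasurable]
  constructor
  · exact Filter.Eventually.of_forall fun x => integrable_G.comp_sub_right x
  · have h1 : ∀ x : ℝ, ∫ y, ‖G (y - x)‖ = ∫ y, ‖G y‖ := fun x =>
      integral_sub_right_eq_self (fun y => ‖G y‖) x
    simp_rw [h1]
    exact integrable_const _

theorem lower2 (h2 : MemLp (fun x : ℝ => x) 2 μ) :
    ∫ y, q μ y * log (q μ y) ≤ -(log (2 * π * rexp 1) / 2) := by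
  have hi := integrable_Gprod μ
  have hp : ∀ᵐ y ∂(volume : Measure ℝ), q μ y * log (q μ y) ≤ ∫ x, G (y - x) ∂μ := by
    filter_upwards [hi.prod_right_ae] with y hy
    have i1 : Integrable (fun x => log (q μ y) * g (y - x)) μ := (integrable_gx μ y).const_mul _
    have i2 : Integrable (fun x => log (q μ y) * g (y - x) - q μ y) μ :=
      i1.sub (integrable_const _)
    have i3 : Integrable (fun x => log (q μ y) * g (y - x) - q μ y + g (y - x)) μ :=
      i2.add (integrable_gx μ y)
    have h3 : ∫ x, (log (q μ y) * g (y - x) - q μ y + g (y - x)) ∂μ = q μ y * log (q μ y) := by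
      rw [integral_add i2 (integrable_gx μ y), integral_sub i1 (integrable_const _),
        integral_const_mul, ← q_eq]
      simp
      ring
    rw [← h3]
    refine integral_mono i3 hy fun x => ?_
    have h4 := q_log_bound (q μ y) (g (y - x)) (q_pos μ y) (g_nonneg _)
    show log (q μ y) * g (y - x) - q μ y + g (y - x) ≤ G (y - x)
    unfold G
    linarith
  calc ∫ y, q μ y * log (q μ y) ≤ ∫ y, ∫ x, G (y - x) ∂μ :=
        integral_mono_ae (integrable_q_log μ h2) hi.integral_prod_left hp
    _ = ∫ x, (∫ y, G (y - x)) ∂μ := integral_integral_swap (f := fun y x => G (y - x)) hi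
    _ = ∫ _x, -(log (2 * π * rexp 1) / 2) ∂μ := by
        refine integral_congr_ae (Filter.Eventually.of_forall fun x => ?_)
        show ∫ y, G (y - x) = -(log (2 * π * rexp 1) / 2)
        rw [integral_sub_right_eq_self G x, integral_G]
    _ = -(log (2 * π * rexp 1) / 2) := by
        simp

end Pool.Agent.TH12.EN
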