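import Pool.Agent.TH12.EN.Basic
set_option autoImplicit false

namespace Pool.Agent.TH12.EN

open MeasureTheory ProbabilityTheory Real Set
open scoped ENNReal Pointwise

variable (μ : Measure ℝ) [IsProbabilityMeasure μ]

theorem integrable_q_mul_sq (h2 : MemLp (fun x : ℝ => x) 2 μ) :
    Integrable fun y : ℝ => y ^ 2 * q μ y := by
  have hm : Measurable fun p : ℝ × ℝ => p.1 + p.2 := measurable_fst.add measurable_snd
  have hf : MemLp (fun p : ℝ × ℝ => p.1) 2 (μ.prod (gaussianReal 0 1)) :=
    h2.comp_measurePreserving measurePreserving_fst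
  have hG : MemLp (fun x : ℝ => x) 2 (gaussianReal 0 1) := memLp_id_gaussianReal 2
  have hs : MemLp (fun p : ℝ × ℝ => p.2) 2 (μ.prod (gaussianReal 0 1)) :=
    hG.comp_measurePreserving measurePreserving_snd
  have h3 : Integrable (fun p : ℝ × ℝ => (p.1 + p.2) ^ 2) (μ.prod (gaussianReal 0 1)) :=
    (hf.add hs).integrable_sq
  have h4 : Integrable (fun y : ℝ => y ^ 2)
      ((μ.prod (gaussianReal 0 1)).map (fun p : ℝ × ℝ => p.1 + p.2)) := by
    rw [integrable_map_measure (by fun_prop) hm.aemeasurable]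
    exact h3
  rw [law_eq, integrable_withDensity_iff (measurable_Q μ)
    (Filter.Eventually.of_forall fun y => (Q_le μ y).trans_lt ENNReal.one_lt_top)] at h4
  exact h4

theorem q_log_bound (a t : ℝ) (ha : 0 < a) (ht : 0 ≤ t) : t * log t ≥ t * log a - a + t := by
  rcases ht.eq_or_lt with rfl | ht
  · simp [ha.le]
  · have h1 : log (a / t) ≤ a / t - 1 := log_le_sub_one_of_pos (div_pos ha ht)
    rw [log_div ha.ne' ht.ne'] at h1
    have h2 := mul_le_mul_of_nonneg_left h1 ht.le
    have h3 : t * (a / t - 1) = a - t := by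
      field_simp
    rw [h3] at h2
    linarith

theorem integrable_q_log (h2 : MemLp (fun x : ℝ => x) 2 μ) :
    Integrable fun y : ℝ => q μ y * log (q μ y) := by
  have h3 : Integrable fun y : ℝ => y ^ 2 * q μ y + rexp (-1 * y ^ 2) :=
    (integrable_q_mul_sq μ h2).add (integrable_exp_neg_mul_sq one_pos)
  refine Integrable.mono' h3 ?_ ?_
  · exact ((measurable_q μ).mul (measurable_q μ).log).aestronglyMeasurable
  · refine Filter.Eventually.of_forall fun y => ?_
    have h0 := q_nonneg μ y
    have h1 := q_le μ y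
    have h4 : q μ y * log (q μ y) ≤ 0 :=
      mul_nonpos_of_nonneg_of_nonpos h0 (log_nonpos h0 h1)
    rw [Real.norm_eq_abs, abs_of_nonpos h4]
    have h5 := q_log_bound (rexp (-1 * y ^ 2)) (q μ y) (exp_pos _) h0
    rw [log_exp] at h5
    nlinarith

theorem lower (h2 : MemLp (fun x : ℝ => x) 2 μ) :
    ∫ y, q μ y * log (q μ y) ≤ log ((2 * √π)⁻¹ * K μ) := by
  set c := (2 * √π)⁻¹ * K μ with hc
  have hc0 : 0 < c := mul_pos (by positivity) (K_pos μ)
  have h3 : ∀ y, q μ y * log (q μ y) ≤ log c * q μ y + c⁻¹ * q μ y ^ 2 - q μ y := by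
    intro y
    have h0 := q_nonneg μ y
    rcases h0.eq_or_lt with h0 | h0
    · rw [← h0]
      simp
    · have h4 : log (q μ y / c) ≤ q μ y / c - 1 := log_le_sub_one_of_pos (div_pos h0 hc0)
      rw [log_div h0.ne' hc0.ne'] at h4
      have h5 := mul_le_mul_of_nonneg_left h4 h0.le
      have h6 : q μ y * (q μ y / c - 1) = c⁻¹ * q μ y ^ 2 - q μ y := by
        field_simp
      rw [h6] at h5
      linarith
  have hi1 : Integrable fun y => log c * q μ y + c⁻¹ * q μ y ^ 2 :=
    ((integrable_q μ).const_mul _).add ((integrable_q_sq μ).const_mul _)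
  calc ∫ y, q μ y * log (q μ y) ≤ ∫ y, (log c * q μ y + c⁻¹ * q μ y ^ 2 - q μ y) :=
        integral_mono (integrable_q_log μ h2) (hi1.sub (integrable_q μ)) h3
    _ = log c * 1 + c⁻¹ * c - 1 := by
        rw [integral_sub hi1 (integrable_q μ),
          integral_add ((integrable_q μ).const_mul _) ((integrable_q_sq μ).const_mul _),
          integral_const_mul, integral_const_mul, integral_q, integral_q_sq]
    _ = log c := by
        rw [inv_mul_cancel₀ hc0.ne']
        ring

theorem upper (ν : Measure ℝ) [IsProbabilityMeasure ν] (hν : ν ≪ volume) (B : Set ℝ)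
    (hB : MeasurableSet B) (hBν : ν Bᶜ = 0) (L : ℝ) (hL : 0 < L) (hBL : volume B = ENNReal.ofReal L)
    (hint : Integrable (fun x => (ν.rnDeriv volume x).toReal *
      log ((ν.rnDeriv volume x).toReal)) volume) :
    -∫ x, (ν.rnDeriv volume x).toReal * log ((ν.rnDeriv volume x).toReal) ≤ log L := by
  set F : ℝ → ℝ := fun x => (ν.rnDeriv volume x).toReal with hF
  have hF0 : ∀ x, 0 ≤ F x := fun x => ENNReal.toReal_nonneg
  have hF1 : ∫ x, F x = 1 := by
    rw [hF, Measure.integral_toReal_rnDeriv hν]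
    simp
  have hFi : Integrable F := Measure.integrable_toReal_rnDeriv
  have hz : ∀ᵐ x ∂(volume : Measure ℝ), x ∈ Bᶜ → F x = 0 := by
    have h1 : ∫⁻ x in Bᶜ, ν.rnDeriv volume x = 0 := by
      have h2 := Measure.setLIntegral_rnDeriv_le (μ := ν) (ν := (volume : Measure ℝ)) Bᶜ
      rw [hBν] at h2
      exact nonpos_iff_eq_zero.1 h2
    rw [lintegral_eq_zero_iff (Measure.measurable_rnDeriv _ _)] at h1
    have h3 := (ae_restrict_iff' hB.compl).1 h1
    filter_upwards [h3] with x hx hxB
    have h4 := hx hxB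
    rw [hF]
    simp only
    rw [h4]
    simp
  have hBi : Integrable (B.indicator fun _ : ℝ => L⁻¹) := by
    rw [integrable_indicator_iff hB]
    refine integrableOn_const ?_
    rw [hBL]
    exact ENNReal.ofReal_ne_top
  have hp : ∀ᵐ x ∂(volume : Measure ℝ), -(F x * log (F x)) ≤
      log L * F x + B.indicator (fun _ => L⁻¹) x - F x := by
    filter_upwards [hz] with x hx
    by_cases hxB : x ∈ B
    · rw [indicator_of_mem hxB]
      have h1 := q_log_bound L⁻¹ (F x) (inv_pos.2 hL) (hF0 x)
      rw [log_inv] at h1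
      linarith
    · rw [indicator_of_notMem hxB, hx hxB]
      simp
  have hi1 : Integrable fun x => log L * F x + B.indicator (fun _ : ℝ => L⁻¹) x :=
    (hFi.const_mul _).add hBi
  calc -∫ x, F x * log (F x) = ∫ x, -(F x * log (F x)) := (integral_neg _).symm
    _ ≤ ∫ x, (log L * F x + B.indicator (fun _ => L⁻¹) x - F x) :=
        integral_mono_ae hint.neg (hi1.sub hFi) hp
    _ = log L * 1 + L * L⁻¹ - 1 := by
        rw [integral_sub hi1 hFi, integral_add (hFi.const_mul _) hBi, integral_const_mul, hF1,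
          integral_indicator hB, setIntegral_const]
        congr 2
        rw [measureReal_def, hBL, ENNReal.toReal_ofReal hL.le, smul_eq_mul]
    _ = log L := by
        rw [mul_inv_cancel₀ hL.ne']
        ring

/-- the inequality `h(X + Y) ≤ h(X + Z)` in the form of the frozen statement -/
def EntropyInequality (μ : Measure ℝ) : Prop :=
  (μ.prod μ).map (fun p : ℝ × ℝ => p.1 + p.2) ≪ volume →
  Integrable (fun x : ℝ =>
    (((μ.prod μ).map (fun p : ℝ × ℝ => p.1 + p.2)).rnDeriv volume x).toReal *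
      Real.log ((((μ.prod μ).map (fun p : ℝ × ℝ => p.1 + p.2)).rnDeriv volume x).toReal))
    volume →
  -∫ x : ℝ,
      (((μ.prod μ).map (fun p : ℝ × ℝ => p.1 + p.2)).rnDeriv volume x).toReal *
        Real.log ((((μ.prod μ).map (fun p : ℝ × ℝ => p.1 + p.2)).rnDeriv volume x).toReal)
    ≤
  -∫ x : ℝ,
      (((μ.prod (gaussianReal 0 1)).map (fun p : ℝ × ℝ => p.1 + p.2)).rnDeriv volume x).toReal *
        Real.log ((((μ.prod (gaussianReal 0 1)).map
          (fun p : ℝ × ℝ => p.1 + p.2)).rnDeriv volume x).toReal)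

theorem main (h2 : MemLp (fun x : ℝ => x) 2 μ) (A : Set ℝ) (hA : ∀ᵐ x ∂μ, x ∈ A)
    (hK : volume (A + A) * ENNReal.ofReal (K μ) ≤ ENNReal.ofReal (2 * √π)) :
    EntropyInequality μ := by
  intro hac hint
  have hm : Measurable fun p : ℝ × ℝ => p.1 + p.2 := measurable_fst.add measurable_snd
  set ν := (μ.prod μ).map (fun p : ℝ × ℝ => p.1 + p.2) with hν
  have : IsProbabilityMeasure ν := Measure.isProbabilityMeasure_map hm.aemeasurable
  set B := toMeasurable volume (A + A) with hBdef
  have hB : MeasurableSet B := measurableSet_toMeasurable _ _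
  have hBA : volume B = volume (A + A) := measure_toMeasurable _
  have hBν : ν Bᶜ = 0 := by
    rw [hν, Measure.map_apply hm hB.compl]
    have h3 : ∀ᵐ p ∂(μ.prod μ), p.1 ∈ A := measurePreserving_fst.quasiMeasurePreserving.ae hA
    have h4 : ∀ᵐ p ∂(μ.prod μ), p.2 ∈ A := measurePreserving_snd.quasiMeasurePreserving.ae hA
    have h5 : ∀ᵐ p ∂(μ.prod μ), ¬ (p.1 + p.2 ∈ Bᶜ) := by
      filter_upwards [h3, h4] with p hp1 hp2 hp
      exact hp (subset_toMeasurable _ _ (Set.add_mem_add hp1 hp2))
    have h6 := ae_iff.1 h5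
    simp only [not_not] at h6
    exact h6
  have hKp := K_pos μ
  have hfin : volume B ≠ ∞ := by
    intro h
    rw [← hBA, h, ENNReal.top_mul (by simpa using hKp)] at hK
    exact ENNReal.ofReal_ne_top (top_le_iff.1 hK)
  have hpos : volume B ≠ 0 := by
    intro h
    have h6 : ν B = 0 := hac h
    have h7 : ν univ = 0 := by
      rw [← Set.union_compl_self B]
      exact measure_union_null h6 hBν
    simp at h7
  set L := (volume B).toReal with hLdef
  have hL : 0 < L := ENNReal.toReal_pos hpos hfin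
  have hBL : volume B = ENNReal.ofReal L := (ENNReal.ofReal_toReal hfin).symm
  have hLK : L * K μ ≤ 2 * √π := by
    rw [← hBA, hBL, ← ENNReal.ofReal_mul hL.le] at hK
    exact (ENNReal.ofReal_le_ofReal_iff (by positivity)).1 hK
  have h8 := upper ν hac B hB hBν L hL hBL hint
  have h9 := lower μ h2
  have h10 : ∫ x : ℝ,
      (((μ.prod (gaussianReal 0 1)).map (fun p : ℝ × ℝ => p.1 + p.2)).rnDeriv volume x).toReal *
        Real.log ((((μ.prod (gaussianReal 0 1)).map
          (fun p : ℝ × ℝ => p.1 + p.2)).rnDeriv volume x).toReal) =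
      ∫ y, q μ y * log (q μ y) := by
    rw [law_eq]
    refine integral_congr_ae ?_
    filter_upwards [Measure.rnDeriv_withDensity (volume : Measure ℝ) (measurable_Q μ)] with y hy
    rw [hy]
    rfl
  rw [h10]
  refine h8.trans ?_
  have h11 : log L + log ((2 * √π)⁻¹ * K μ) ≤ 0 := by
    rw [← log_mul hL.ne' (by positivity)]
    refine log_nonpos (by positivity) ?_
    have h12 : L * ((2 * √π)⁻¹ * K μ) = (L * K μ) / (2 * √π) := by
      field_simp
    rw [h12, div_le_one (by positivity)]
    exact hLK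
  linarith

end Pool.Agent.TH12.EN
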