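import Pool.Agent.TH12.EN.Low2
set_option autoImplicit false

namespace Pool.Agent.TH12.EN

open MeasureTheory ProbabilityTheory Real Set
open scoped ENNReal Pointwise

variable (μ : Measure ℝ) [IsProbabilityMeasure μ]

theorem sum_upper (A : Set ℝ) (hA : ∀ᵐ x ∂μ, x ∈ A)
    (hac : (μ.prod μ).map (fun p : ℝ × ℝ => p.1 + p.2) ≪ volume)
    (hint : Integrable (fun x : ℝ =>
      (((μ.prod μ).map (fun p : ℝ × ℝ => p.1 + p.2)).rnDeriv volume x).toReal *
        Real.log ((((μ.prod μ).map (fun p : ℝ × ℝ => p.1 + p.2)).rnDeriv volume x).toReal)) volume)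
    (L₀ : ℝ) (hL₀ : 0 < L₀) (hAA : volume (A + A) ≤ ENNReal.ofReal L₀) :
    -∫ x : ℝ,
      (((μ.prod μ).map (fun p : ℝ × ℝ => p.1 + p.2)).rnDeriv volume x).toReal *
        Real.log ((((μ.prod μ).map (fun p : ℝ × ℝ => p.1 + p.2)).rnDeriv volume x).toReal) ≤
      log L₀ := by
  have hm : Measurable fun p : ℝ × ℝ => p.1 + p.2 := measurable_fst.add measurable_snd
  set ν := (μ.prod μ).map (fun p : ℝ × ℝ => p.1 + p.2) with hν
  have : IsProbabilityMeasure ν := Measure.isProbabilityMeasure_map hm.aemeasurable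
  set B := toMeasurable volume (A + A) with hBdef
  have hB : MeasurableSet B := measurableSet_toMeasurable _ _
  have hBA : volume B = volume (A + A) := measure_toMeasurable _
  have hBν : ν Bᶜ = 0 := by
    rw [hν, Measure.map_apply hm hB.compl]
    have h3 : ∀ᵐ p ∂(μ.prod μ), p.1 ∈ A := measurePreserving_fst.quasiMeasurePreserving.ae hA
    have h4 : ∀ᵐ p ∂(μ.prod μ), p.2 ∈ A := measurePreserving_snd.quasiMeasurePreserving.ae hA
    have h5 : ∀ᵐ p ∂(μ.prod μ), ¬ (p.1 + p.2 ∈ Bᶜ) := by
      filter_upwards [h3, h4] with p hp1 hp2 hp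
      exact hp (subset_toMeasurable _ _ (Set.add_mem_add hp1 hp2))
    have h6 := ae_iff.1 h5
    simp only [not_not] at h6
    exact h6
  have hfin : volume B ≠ ∞ := by
    rw [hBA]
    exact ne_top_of_le_ne_top ENNReal.ofReal_ne_top hAA
  have hpos : volume B ≠ 0 := by
    intro h
    have h6 : ν B = 0 := hac h
    have h7 : ν univ = 0 := by
      rw [← Set.union_compl_self B]
      exact measure_union_null h6 hBν
    simp at h7
  have hL : 0 < (volume B).toReal := ENNReal.toReal_pos hpos hfin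
  have hBL : volume B = ENNReal.ofReal (volume B).toReal := (ENNReal.ofReal_toReal hfin).symm
  have hle : (volume B).toReal ≤ L₀ := by
    rw [← hBA, hBL] at hAA
    exact (ENNReal.ofReal_le_ofReal_iff hL₀.le).1 hAA
  exact (upper ν hac B hB hBν _ hL hBL hint).trans (log_le_log hL hle)

theorem gauss_ent : -∫ x : ℝ,
      (((μ.prod (gaussianReal 0 1)).map (fun p : ℝ × ℝ => p.1 + p.2)).rnDeriv volume x).toReal *
        Real.log ((((μ.prod (gaussianReal 0 1)).map
          (fun p : ℝ × ℝ => p.1 + p.2)).rnDeriv volume x).toReal) =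
      -∫ y, q μ y * log (q μ y) := by
  rw [law_eq]
  congr 1
  refine integral_congr_ae ?_
  filter_upwards [Measure.rnDeriv_withDensity (volume : Measure ℝ) (measurable_Q μ)] with y hy
  rw [hy]
  rfl

theorem gauss_low1 (h2 : MemLp (fun x : ℝ => x) 2 μ) :
    log (2 * √π) - log (K μ) ≤ -∫ y, q μ y * log (q μ y) := by
  have h := lower μ h2
  rw [log_mul (by positivity) (K_pos μ).ne', log_inv] at h
  linarith

theorem gauss_low2 (h2 : MemLp (fun x : ℝ => x) 2 μ) :
    log (2 * π * rexp 1) / 2 ≤ -∫ y, q μ y * log (q μ y) := by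
  have h := lower2 μ h2
  linarith

end Pool.Agent.TH12.EN
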